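import Pool.Agent.Helper62.PM.St2

/-!
# Project PM, module XH: the composition of `A` with a zonal polynomial has a continuous zonal kernel
-/

set_option autoImplicit false

open MeasureTheory Metric Set Filter Topology Polynomial
open scoped RealInnerProductSpace ContDiff

namespace Pool.Agent.Helper17.PM

open Pool.Agent.Helper62.PM
open Pool.Agent.Helper62.Mink

private noncomputable def mm {n j : ℕ} (σ : Fin j → Fin n) (z : E n) : ℝ :=
  ‖z‖ * ∏ i, (z (σ i) / ‖z‖)

private lemma mm_S1 {n j : ℕ} (σ : Fin j → Fin n) : S1 (mm σ) := by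
  refine ⟨fun c hc x => ?_, ?_⟩
  · rcases hc.eq_or_lt with rfl | hc'
    · simp [mm]
    · unfold mm
      rw [norm_smul, Real.norm_of_nonneg hc, mul_assoc]
      congr 2
      refine Finset.prod_congr rfl fun i _ => ?_
      simp only [PiLp.smul_apply, smul_eq_mul]
      exact mul_div_mul_left _ _ hc'.ne'
  · unfold mm
    have h1 : ContDiffOn ℝ ∞ (fun z : E n => ‖z‖) {0}ᶜ :=
      fun z hz => (contDiffAt_norm ℝ hz).contDiffWithinAt
    refine h1.mul (contDiffOn_prod fun i _ => ?_)
    refine ContDiffOn.div ?_ h1 (fun z hz => norm_ne_zero_iff.2 hz)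
    exact (EuclideanSpace.proj (𝕜 := ℝ) (σ i)).contDiff.contDiffOn

private lemma decomp (n : ℕ) (p : ℝ[X]) : ∃ (ι : Type) (_ : Fintype ι) (c m : ι → E n → ℝ),
    (∀ k, Continuous (c k)) ∧ (∀ k, S1 (m k)) ∧
    ∀ u z : E n, ‖z‖ * p.eval (inner ℝ z u / ‖z‖) = ∑ k, c k u * m k z := by
  induction p using Polynomial.induction_on' with
  | add p q hp hq =>
    obtain ⟨ι, _, c, m, hc, hm, h⟩ := hp
    obtain ⟨κ, _, c', m', hc', hm', h'⟩ := hq
    refine ⟨ι ⊕ κ, inferInstance, Sum.elim c c', Sum.elim m m', ?_, ?_, ?_⟩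
    · rintro (k | k)
      · exact hc k
      · exact hc' k
    · rintro (k | k)
      · exact hm k
      · exact hm' k
    · intro u z
      rw [Polynomial.eval_add, mul_add, h, h', Fintype.sum_sum_type]
      rfl
  | monomial j a =>
    refine ⟨Fin j → Fin n, inferInstance, fun σ u => a * ∏ i, u (σ i), fun σ => mm σ, ?_,
      fun σ => mm_S1 σ, ?_⟩
    · intro σ
      fun_prop
    · intro u z
      rw [Polynomial.eval_monomial]
      have h1 : inner ℝ z u / ‖z‖ = ∑ i : Fin n, u i * (z i / ‖z‖) := by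
        rw [PiLp.inner_apply, Finset.sum_div]
        refine Finset.sum_congr rfl fun i _ => ?_
        simp only [RCLike.inner_apply, conj_trivial]
        ring
      rw [h1, Fintype.sum_pow, Finset.mul_sum, Finset.mul_sum]
      refine Finset.sum_congr rfl fun σ _ => ?_
      rw [Finset.prod_mul_distrib]
      unfold mm
      ring

private lemma mu_sum {n : ℕ} (hD : StD) {e : E n} {μ : (E n → ℝ) → ℝ} (hμ : ZDist e μ)
    {ι : Type} [Fintype ι] (m : ι → E n → ℝ) (hm : ∀ k, S1 (m k)) (a : ι → ℝ) :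
    S1 (fun z => ∑ k, a k * m k z) ∧ μ (fun z => ∑ k, a k * m k z) = ∑ k, a k * μ (m k) := by
  classical
  have key : ∀ s : Finset ι, S1 (fun z => ∑ k ∈ s, a k * m k z) ∧
      μ (fun z => ∑ k ∈ s, a k * m k z) = ∑ k ∈ s, a k * μ (m k) := by
    intro s
    induction s using Finset.induction_on with
    | empty =>
      simp only [Finset.sum_empty]
      have h0 : S1 (fun _ : E n => (0 : ℝ)) := ⟨by intros; simp, contDiffOn_const⟩
      refine ⟨h0, ?_⟩
      have := hμ.smul 0 _ h0
      simpa using this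
    | insert k s hk ih =>
      simp only [Finset.sum_insert hk]
      have h1 := (((hD n).2.1 (a k) (m k) (hm k)).1)
      refine ⟨((hD n).1 _ _ h1 ih.1).1, ?_⟩
      rw [hμ.add _ _ h1 ih.1, hμ.smul _ _ (hm k), ih.2]
  exact key Finset.univ

private lemma exists_perp {n : ℕ} (hn : 3 ≤ n) {e : E n} (he : ‖e‖ = 1) :
    ∃ v : E n, ON (e, v) := by
  have h0 : ‖(EuclideanSpace.single (⟨0, by omega⟩ : Fin n) (1 : ℝ) : E n)‖ = 1 := by simp
  obtain ⟨θ, -, hθ⟩ := exists_rot (by omega : 2 ≤ n) h0 he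
  refine ⟨θ (EuclideanSpace.single (⟨1, by omega⟩ : Fin n) (1 : ℝ)), he, ?_, ?_⟩
  · simp
  · simp only
    rw [← hθ, LinearIsometryEquiv.inner_map_map]
    simp [EuclideanSpace.inner_single_left]

private lemma same_t {n : ℕ} (hL : StL) (hn : 3 ≤ n) {e v : E n} (hev : ON (e, v)) {u : E n}
    (hu : ‖u‖ = 1) : ∃ η : E n ≃ₗᵢ[ℝ] E n, IsRot η ∧ η e = e ∧
      η ((inner ℝ e u : ℝ) • e + Real.sqrt (1 - (inner ℝ e u : ℝ) ^ 2) • v) = u := by
  obtain ⟨he, hv, hevo⟩ := hev
  simp only at he hv hevo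
  set t : ℝ := inner ℝ e u with ht
  set w : E n := u - t • e with hw
  have hee : (inner ℝ e e : ℝ) = 1 := by rw [real_inner_self_eq_norm_sq, he]; norm_num
  have hew : (inner ℝ e w : ℝ) = 0 := by
    rw [hw, inner_sub_right, inner_smul_right, hee, ← ht]; ring
  have hww : ‖w‖ ^ 2 = 1 - t ^ 2 := by
    have h1 : (inner ℝ u e : ℝ) = t := by rw [real_inner_comm]
    rw [← real_inner_self_eq_norm_sq, hw, inner_sub_right, inner_sub_left, inner_sub_left,
      inner_smul_right, inner_smul_left, inner_smul_left, inner_smul_right, hee, h1, ← ht,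
      real_inner_self_eq_norm_sq, hu]
    simp only [conj_trivial]
    ring
  have hsq : Real.sqrt (1 - t ^ 2) = ‖w‖ := by
    rw [← hww, Real.sqrt_sq (norm_nonneg _)]
  rw [hsq]
  by_cases hw0 : w = 0
  · obtain ⟨η, hη, h1, -⟩ := hL n e v e v hn ⟨he, hv, hevo⟩ ⟨he, hv, hevo⟩
    refine ⟨η, hη, h1, ?_⟩
    rw [hw0, norm_zero, zero_smul, add_zero, map_smul, h1]
    exact (sub_eq_zero.1 (hw ▸ hw0)).symm
  · have hwn : ‖w‖ ≠ 0 := norm_ne_zero_iff.2 hw0
    obtain ⟨η, hη, h1, h2⟩ := hL n e v e (‖w‖⁻¹ • w) hn ⟨he, hv, hevo⟩ ⟨he, by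
      simp only
      rw [norm_smul, norm_inv, norm_norm, inv_mul_cancel₀ hwn], by
      simp only
      rw [inner_smul_right, hew, mul_zero]⟩
    refine ⟨η, hη, h1, ?_⟩
    rw [map_add, map_smul, map_smul, h1, h2, smul_smul, mul_inv_cancel₀ hwn, one_smul, hw]
    abel

private lemma int_cont {n : ℕ} {f : E n → ℝ} (hf : Continuous f) :
    Integrable (fun w : sphere (0 : E n) 1 => f (w : E n)) (sg n) :=
  (hf.comp continuous_subtype_val).integrable_of_hasCompactSupport
    (HasCompactSupport.of_compactSpace _)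

theorem hXH : StD → StL → StXG → StXH := by
  intro hD hL hXG n e μ A N C hn he hμ hA p
  obtain ⟨ι, _, c, m, hc, hm, hcm⟩ := decomp n p
  obtain ⟨v, hev⟩ := exists_perp hn he
  set G : E n → ℝ := fun u => ∑ k, c k u * μ (m k) with hG
  have hGc : Continuous G := continuous_finsetSum _ fun k _ => (hc k).mul continuous_const
  have hGμ : ∀ u, G u = μ (fun z => ‖z‖ * p.eval (inner ℝ z u / ‖z‖)) := by
    intro u
    have h1 := (mu_sum hD hμ m hm (fun k => c k u)).2
    simp only [hG]
    rw [← h1]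
    congr 1
    funext z
    exact (hcm u z).symm
  have hS : ∀ u, S1 (fun z : E n => ‖z‖ * p.eval (inner ℝ z u / ‖z‖)) := by
    intro u
    have h1 := (mu_sum hD hμ m hm (fun k => c k u)).1
    have h2 : (fun z : E n => ‖z‖ * p.eval (inner ℝ z u / ‖z‖)) =
        fun z => ∑ k, c k u * m k z := by
      funext z
      exact hcm u z
    rw [h2]
    exact h1
  have hGinv : ∀ η : E n ≃ₗᵢ[ℝ] E n, IsRot η → η e = e → ∀ u, G (η u) = G u := by
    intro η hη hηe u
    rw [hGμ, hGμ, ← hμ.zonal η hη hηe _ (hS (η u))]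
    congr 1
    funext z
    simp only [LinearIsometryEquiv.norm_map, LinearIsometryEquiv.inner_map_map]
  set cl : ℝ → ℝ := fun t => max (-1) (min 1 t) with hcl
  have hclc : Continuous cl := by
    simp only [hcl]
    fun_prop
  set g : ℝ → ℝ := fun t => G (cl t • e + Real.sqrt (1 - cl t ^ 2) • v) with hg
  have hgc : Continuous g := by
    simp only [hg]
    have hs : Continuous fun t => Real.sqrt (1 - cl t ^ 2) :=
      Real.continuous_sqrt.comp (continuous_const.sub (hclc.pow 2))
    exact hGc.comp ((hclc.smul continuous_const).add (hs.smul continuous_const))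
  have hGg : ∀ u : E n, ‖u‖ = 1 → G u = g (inner ℝ e u) := by
    intro u hu
    obtain ⟨η, hη, h1, h2⟩ := same_t hL hn hev hu
    have h3 : |(inner ℝ e u : ℝ)| ≤ 1 := by
      have := abs_real_inner_le_norm e u
      rw [he, hu, one_mul] at this
      exact this
    have h4 : cl (inner ℝ e u) = inner ℝ e u := by
      simp only [hcl]
      rw [min_eq_right (abs_le.1 h3).2, max_eq_right (abs_le.1 h3).1]
    simp only [hg]
    have h5 := hGinv η hη h1 ((inner ℝ e u : ℝ) • e + Real.sqrt (1 - (inner ℝ e u : ℝ) ^ 2) • v)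
    rw [h2] at h5
    rw [h4, h5]
  refine ⟨g, hgc, fun φ hφ x hx => ?_⟩
  obtain ⟨θ, hθ, hθe⟩ := exists_rot (by omega : 2 ≤ n) he hx
  have hconvS : S1 (conv φ (fun t => p.eval t)) := (hXG n p).1 φ hφ
  rw [← hθe, hA.pole _ hconvS θ hθ]
  have hint : ∀ k, Integrable (fun w : sphere (0 : E n) 1 =>
      φ (w : E n) * c k (θ.symm (w : E n))) (sg n) := fun k =>
    int_cont (f := fun w => φ w * c k (θ.symm w)) (hφ.mul ((hc k).comp θ.symm.continuous))
  have h1 : (fun z => conv φ (fun t => p.eval t) (θ z)) =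
      fun z => ∑ k, (∫ w : sphere (0 : E n) 1, φ (w : E n) * c k (θ.symm (w : E n)) ∂(sg n)) *
        m k z := by
    funext z
    unfold conv
    have h2 : ∀ w : sphere (0 : E n) 1,
        φ (w : E n) * (‖θ z‖ * p.eval (inner ℝ (θ z) (w : E n) / ‖θ z‖)) =
        ∑ k, (φ (w : E n) * c k (θ.symm (w : E n))) * m k z := by
      intro w
      have h3 : (inner ℝ (θ z) (w : E n) : ℝ) = inner ℝ z (θ.symm (w : E n)) := by
        conv_lhs => rw [← θ.apply_symm_apply (w : E n)]
        rw [LinearIsometryEquiv.inner_map_map]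
      rw [h3, LinearIsometryEquiv.norm_map, hcm, Finset.mul_sum]
      refine Finset.sum_congr rfl fun k _ => ?_
      ring
    rw [integral_congr_ae (Filter.Eventually.of_forall h2),
      integral_finsetSum _ fun k _ => (hint k).mul_const _]
    refine Finset.sum_congr rfl fun k _ => ?_
    rw [integral_mul_const]
  rw [h1, (mu_sum hD hμ m hm _).2]
  have h2 : ∀ w : sphere (0 : E n) 1, φ (w : E n) * g (inner ℝ (θ e) (w : E n)) =
      ∑ k, (φ (w : E n) * c k (θ.symm (w : E n))) * μ (m k) := by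
    intro w
    have h3 : (inner ℝ (θ e) (w : E n) : ℝ) = inner ℝ e (θ.symm (w : E n)) := by
      conv_lhs => rw [← θ.apply_symm_apply (w : E n)]
      rw [LinearIsometryEquiv.inner_map_map]
    have h4 : ‖θ.symm (w : E n)‖ = 1 := by
      rw [LinearIsometryEquiv.norm_map]
      exact norm_eq_of_mem_sphere w
    rw [h3, ← hGg _ h4]
    simp only [hG]
    rw [Finset.mul_sum]
    refine Finset.sum_congr rfl fun k _ => ?_
    ring
  rw [integral_congr_ae (Filter.Eventually.of_forall h2),
    integral_finsetSum _ fun k _ => (hint k).mul_const _]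
  refine Finset.sum_congr rfl fun k _ => ?_
  rw [integral_mul_const]

end Pool.Agent.Helper17.PM
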